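import Pool.Agent.BEH.Stmts

set_option autoImplicit false

/-!
# BEH, row MMT: trial spaces
-/

open Set Filter Topology MeasureTheory
open scoped InnerProductSpace ENNReal

namespace Pool.Agent.BEH.H77

open Pool.Agent.BEH
open Pool.Agent.BE01 Pool.Agent.BEL

/-- **MMT** -/
theorem mmt : MmtStmt := by
  intro d Ω ι b e om hs m T c h0 hc
  let Λ : (Fin (m + 1) → ℝ) →ₗ[ℝ] (Fin m → ℝ) :=
    LinearMap.pi fun i => (innerₛₗ ℝ (b i)) ∘ₗ (ι : VV Ω →ₗ[ℝ] Lp ℝ 2 (mu Ω)) ∘ₗ T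
  have hΛ : ∀ x i, Λ x i = ⟪b i, ι (T x)⟫_ℝ := fun x i => rfl
  have hker : LinearMap.ker Λ ≠ ⊥ := LinearMap.ker_ne_bot_of_finrank_lt (by simp)
  obtain ⟨x, hx, hx0⟩ := Submodule.exists_mem_ne_zero_of_ne_bot hker
  rw [LinearMap.mem_ker] at hx
  have hz : ∀ k, k < m → ⟪b k, ι (T x)⟫_ℝ = 0 := by
    intro k hk
    have h := hΛ x ⟨k, hk⟩
    rw [hx] at h
    exact h.symm
  have hι : 0 < ‖ι (T x)‖ := norm_pos_iff.2 (h0 x hx0)
  have s1 := (b.hasSum_inner_mul_inner (ι (T x)) (ι (T x))).mul_left (om m ^ 2)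
  have s2 := e.hasSum_inner_mul_inner (T x) (T x)
  have hle : om m ^ 2 * ⟪ι (T x), ι (T x)⟫_ℝ ≤ ⟪T x, T x⟫_ℝ := by
    refine hasSum_le (fun k => ?_) s1 s2
    rw [real_inner_comm (b k) (ι (T x)), real_inner_comm (e k) (T x)]
    rcases lt_or_ge k m with hk | hk
    · rw [hz k hk, mul_zero, mul_zero]
      exact mul_self_nonneg _
    · have hk0 := hs.pos k
      have hr := hs.rel k (T x)
      have he : ⟪e k, T x⟫_ℝ = om k * ⟪b k, ι (T x)⟫_ℝ := by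
        rw [hr, ← mul_assoc, mul_inv_cancel₀ hk0.ne', one_mul]
      rw [he]
      have hm := hs.mono hk
      have hm0 := hs.pos m
      have h1 : om m ^ 2 ≤ om k ^ 2 := pow_le_pow_left₀ hm0.le hm 2
      have h2 := mul_le_mul_of_nonneg_right h1 (mul_self_nonneg ⟪b k, ι (T x)⟫_ℝ)
      linarith
  rw [real_inner_self_eq_norm_sq, real_inner_self_eq_norm_sq] at hle
  have h3 := hle.trans (hc x)
  exact le_of_mul_le_mul_right h3 (by positivity)

end Pool.Agent.BEH.H77
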