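import Pool.Agent.BEH.Stmts

set_option autoImplicit false

/-!
# BEH, row RGR: the gradient of a radial function
-/

open Set Filter Topology MeasureTheory
open scoped InnerProductSpace ENNReal

namespace Pool.Agent.BEH.H77

open Pool.Agent.BEH
open Pool.Agent.BE01 Pool.Agent.BEL

theorem rgr_nrm {d : ℕ} {x : En d} (hx : x ≠ 0) :
    HasFDerivAt (fun y : En d => ‖y‖) (innerSL ℝ (‖x‖⁻¹ • x)) x := by
  have hn : ‖x‖ ≠ 0 := norm_ne_zero_iff.2 hx
  have h1 := (hasStrictFDerivAt_norm_sq x).hasFDerivAt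
  have h2 := h1.sqrt (by positivity)
  have h3 : (fun y : En d => √(‖y‖ ^ 2)) = fun y => ‖y‖ := by
    funext y
    exact Real.sqrt_sq (norm_nonneg y)
  rw [h3] at h2
  have h4 : (1 / (2 * √(‖x‖ ^ 2))) • (2 • innerSL ℝ x) = innerSL ℝ (‖x‖⁻¹ • x) := by
    rw [Real.sqrt_sq (norm_nonneg x)]
    ext v
    simp only [smul_apply, innerSL_apply_apply, map_smul, smul_eq_mul,
      nsmul_eq_mul, Nat.cast_ofNat]
    field_simp
  rwa [h4] at h2

/-- **RGR** -/
theorem rgr : RgrStmt := by
  intro d x q r hr hq hc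
  have hnear : ∀ y : En d, ‖y - x‖ < r →
      (fun z : En d => q ‖z - x‖) =ᶠ[𝓝 y] fun _ => q 0 := by
    intro y hy
    have hcont : Continuous fun z : En d => ‖z - x‖ := (continuous_id.sub continuous_const).norm
    have ho : {z : En d | ‖z - x‖ < r} ∈ 𝓝 y :=
      (isOpen_lt hcont continuous_const).mem_nhds hy
    filter_upwards [ho] with z hz
    exact hc _ hz
  have hqat : ∀ s, 0 < s → ContDiffAt ℝ ((⊤ : ℕ∞) : WithTop ℕ∞) q s :=
    fun s hs => hq.contDiffAt (Ioi_mem_nhds hs)
  refine ⟨?_, fun y => ?_⟩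
  · rw [contDiff_iff_contDiffAt]
    intro y
    rcases lt_or_ge ‖y - x‖ r with hy | hy
    · exact contDiffAt_const.congr_of_eventuallyEq (hnear y hy)
    · have hpos : 0 < ‖y - x‖ := lt_of_lt_of_le hr hy
      have h1 : ContDiffAt ℝ ((⊤ : ℕ∞) : WithTop ℕ∞) (fun z : En d => ‖z - x‖) y :=
        (contDiffAt_id.sub contDiffAt_const).norm ℝ (norm_pos_iff.1 hpos)
      exact (hqat _ hpos).comp y h1
  · rcases lt_or_ge ‖y - x‖ r with hy | hy
    · have h1 : gradient (fun z : En d => q ‖z - x‖) y = 0 := by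
        rw [(hnear y hy).gradient_eq]
        exact gradient_const y (q 0)
      have h2 : deriv q ‖y - x‖ = 0 := by
        have h3 : q =ᶠ[𝓝 ‖y - x‖] fun _ => q 0 := by
          filter_upwards [Iio_mem_nhds hy] with z hz
          exact hc _ hz
        rw [h3.deriv_eq]
        exact deriv_const _ _
      rw [h1, h2, zero_div, zero_smul]
    · have hpos : 0 < ‖y - x‖ := lt_of_lt_of_le hr hy
      have hne : y - x ≠ 0 := norm_pos_iff.1 hpos
      have hd : HasDerivAt q (deriv q ‖y - x‖) ‖y - x‖ :=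
        ((hqat _ hpos).differentiableAt (by simp)).hasDerivAt
      have hsub : HasFDerivAt (fun z : En d => z - x) (ContinuousLinearMap.id ℝ (En d)) y :=
        (hasFDerivAt_id y).sub_const x
      have h5 : HasFDerivAt (fun z : En d => ‖z - x‖) (innerSL ℝ (‖y - x‖⁻¹ • (y - x))) y := by
        have h6 := (rgr_nrm hne).comp y hsub
        rwa [ContinuousLinearMap.comp_id] at h6
      apply HasGradientAt.gradient
      rw [hasGradientAt_iff_hasFDerivAt]
      have h1 := hd.comp_hasFDerivAt y h5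
      have h2 : InnerProductSpace.toDual ℝ (En d) ((deriv q ‖y - x‖ / ‖y - x‖) • (y - x)) =
          deriv q ‖y - x‖ • innerSL ℝ (‖y - x‖⁻¹ • (y - x)) := by
        ext v
        simp only [map_smul, smul_apply, InnerProductSpace.toDual_apply_apply,
          innerSL_apply_apply, smul_eq_mul]
        ring
      rw [h2]
      exact h1

end Pool.Agent.BEH.H77
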